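import Pool.Agent.X39.Near.MasterZ
import Pool.Agent.X255.RH.Tow6

/-!
# `z ^ π`, `z ^ z`, `π ^ z`, `π ^ (π z)`, `(π z) ^ (π z)` at ALL algebraic numbers close to any number outside a set of dimension zero

The number `π ^ π` is the value at `z = 1` of `π ^ (π z)` and `(π z) ^ (π z)`. Outside ONE set of complex numbers `x` of
Hausdorff dimension `0`, for all number fields `F ⊂ ℂ`, all `k ≥ 1` and `ω > 0` there are `C` and `T₁` such that for all
`T ≥ T₁` and ALL `z ∈ F` of height at most `T` with `|z - x| ≤ T ^ (-ω)`, not real and `≤ 0` (for instance all rational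
numbers), the numbers `log z`, `z ^ π`, `z ^ z`, `π ^ z`, `π ^ (π z)`, `(π z) ^ (π z)` satisfy `|P| ≥ H ^ (-C)` for all nonzero
integral polynomials `P` of degree at most `k` and of height at most `H`, `T ^ (1 / k) ≤ H ≤ T ^ k`; in particular they are not
rational numbers of height at most `T ^ k`. There is no relation with coefficients which are polynomials of
bounded degree in the `u_i(z) / w(z)` and in given complex numbers `ξ_i` (for instance `π`, `log π`), with coefficients in
`F` of height at most `T ^ A`. This holds at the convergents of all positive irrational real numbers outside this set, from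
some point on. More generally it holds for `log z` and the numbers `exp (P_i (z, log z))`, for complex polynomials `P_i` in
two variables of which no nontrivial combination with integral coefficients is of the form `c + k log z`.
-/

set_option autoImplicit false

open Polynomial MeasureTheory NumberField

namespace Pool.Agent.Results.MP_4c2ad3_nt.ApproximationsOfAllNumbers

open Pool.Agent.X39.Near (Size Dependent Inequality)

/-- No nontrivial combination of the polynomials `P_i (X, Y)` with integral coefficients is of the form `c + k Y`, `c`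
complex, `k` an integer. (The outer variable is `Y`.) -/
def Admissible {r : ℕ} (P : Fin r → ℂ[X][X]) : Prop :=
  ∀ n : Fin r → ℤ, n ≠ 0 → ∀ (c : ℂ) (k : ℤ), ∑ i, (n i : ℂ[X][X]) * P i ≠ C (C c) + (k : ℂ[X][X]) * X

/-- the functions `log z` and `exp (P_i (z, log z))` -/
noncomputable def value {r : ℕ} (P : Fin r → ℂ[X][X]) : Option (Fin r) → ℂ → ℂ
  | none, z => Complex.log z
  | some i, z => Complex.exp ((P i).evalEval z (Complex.log z))

/-- the polynomials `π Y`, `X Y`, `log π X`, `π log π X`, `π X Y + π log π X` -/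
noncomputable def pis : Fin 5 → ℂ[X][X] :=
  ![C (C (Real.pi : ℂ)) * X, C X * X, C (C (Real.log Real.pi : ℂ) * X), C (C (Real.pi * Real.log Real.pi : ℂ) * X),
    C (C (Real.pi : ℂ) * X) * X + C (C (Real.pi * Real.log Real.pi : ℂ) * X)]

/-- the powers `z ^ π`, `z ^ z`, `π ^ z`, `π ^ (π z)`, `(π z) ^ (π z)` -/
noncomputable def powers (z : ℂ) : Fin 5 → ℂ :=
  ![z ^ (Real.pi : ℂ), z ^ z, (Real.pi : ℂ) ^ z, (Real.pi : ℂ) ^ (Real.pi * z), (Real.pi * z) ^ (Real.pi * z)]

theorem lin_pi {m n : ℤ} (h : (m : ℂ) + n * Real.pi = 0) : m = 0 ∧ n = 0 := by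
  have h1 : ((m : ℝ) + n * Real.pi : ℝ) = 0 := by exact_mod_cast h
  by_cases hn : n = 0
  · subst hn
    simp at h1
    exact ⟨by exact_mod_cast h1, rfl⟩
  · exfalso
    apply irrational_pi
    refine ⟨(-m / n : ℚ), ?_⟩
    push_cast
    have hn' : (n : ℝ) ≠ 0 := by exact_mod_cast hn
    field_simp
    linarith

theorem logpi_ne : (Real.log Real.pi : ℂ) ≠ 0 := by
  have h1 : 0 < Real.log Real.pi := Real.log_pos (by linarith [Real.pi_gt_three])
  exact_mod_cast h1.ne'

theorem pis_admissible : Admissible pis := by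
  intro n hn c k h
  apply hn
  have h0 : ∀ i j, ((∑ i, (n i : ℂ[X][X]) * pis i).coeff i).coeff j = ((C (C c) + (k : ℂ[X][X]) * X : ℂ[X][X]).coeff i).coeff j := by
    intro i j
    rw [h]
  have hcast : ∀ m : ℤ, (m : ℂ[X][X]) = C (C (m : ℂ)) := by
    intro m
    simp
  simp only [Fin.sum_univ_five, pis, hcast] at h0
  have h11 := h0 1 1
  have h01 := h0 0 1
  have h10 := h0 1 0
  simp [coeff_C, coeff_X, coeff_one] at h11 h01 h10
  have hc1 : ∀ m : ℤ, (m : ℂ[X]).coeff 1 = 0 := fun m => by
    rw [← map_intCast (C : ℂ →+* ℂ[X]), coeff_C_ne_zero one_ne_zero]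
  rw [hc1, hc1] at h11
  obtain ⟨h1, h4⟩ := lin_pi (m := n 1) (n := n 4) (by linear_combination h11)
  have hl := logpi_ne
  obtain ⟨h2, h3⟩ := lin_pi (m := n 2) (n := n 3) (by
    rw [h4] at h01
    apply (mul_eq_zero.1 (?_ : ((n 2 : ℂ) + n 3 * Real.pi) * Real.log Real.pi = 0)).resolve_right hl
    push_cast at h01 ⊢
    linear_combination h01)
  obtain ⟨_, h00⟩ := lin_pi (m := -k) (n := n 0) (by
    push_cast
    linear_combination h10)
  funext i
  fin_cases i
  · exact h00
  · exact h1
  · exact h2
  · exact h3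
  · exact h4

theorem powers_eq {z : ℂ} (hz : z ∈ Complex.slitPlane) (i : Fin 5) : value pis (some i) z = powers z i := by
  have hz0 : z ≠ 0 := Complex.slitPlane_ne_zero hz
  have hp0 : (Real.pi : ℂ) ≠ 0 := by exact_mod_cast Real.pi_ne_zero
  have hlp : Complex.log (Real.pi : ℂ) = (Real.log Real.pi : ℂ) := (Complex.ofReal_log Real.pi_pos.le).symm
  have hlpz : Complex.log ((Real.pi : ℂ) * z) = Real.log Real.pi + Complex.log z := by
    rw [Complex.log_ofReal_mul Real.pi_pos hz0]
  fin_cases i
  · change Complex.exp ((C (C (Real.pi : ℂ)) * X : ℂ[X][X]).evalEval z (Complex.log z)) = z ^ (Real.pi : ℂ)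
    rw [Complex.cpow_def_of_ne_zero hz0]
    congr 1
    simp [evalEval]
    ring
  · change Complex.exp ((C X * X : ℂ[X][X]).evalEval z (Complex.log z)) = z ^ z
    rw [Complex.cpow_def_of_ne_zero hz0]
    congr 1
    simp [evalEval]
  · change Complex.exp ((C (C (Real.log Real.pi : ℂ) * X) : ℂ[X][X]).evalEval z (Complex.log z)) = (Real.pi : ℂ) ^ z
    rw [Complex.cpow_def_of_ne_zero hp0, hlp]
    simp [evalEval]
  · change Complex.exp ((C (C (Real.pi * Real.log Real.pi : ℂ) * X) : ℂ[X][X]).evalEval z (Complex.log z)) =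
      (Real.pi : ℂ) ^ ((Real.pi : ℂ) * z)
    rw [Complex.cpow_def_of_ne_zero hp0, hlp]
    congr 1
    simp [evalEval]
    ring
  · change Complex.exp ((C (C (Real.pi : ℂ) * X) * X + C (C (Real.pi * Real.log Real.pi : ℂ) * X) :
      ℂ[X][X]).evalEval z (Complex.log z)) = ((Real.pi : ℂ) * z) ^ ((Real.pi : ℂ) * z)
    rw [Complex.cpow_def_of_ne_zero (mul_ne_zero hp0 hz0), hlpz]
    congr 1
    simp [evalEval]
    ring

/-- **Theorem.** Let `P` be an admissible family of complex polynomials in two variables; let `u_k`, `w` be complex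
polynomials, `w` without zeros on the complex plane slit along the real numbers `≤ 0`, and `ξ_1, …, ξ_g` complex numbers.
The polynomials `pis` are admissible, and their values are `z ^ π`, `z ^ z`, `π ^ z`, `π ^ (π z)`, `(π z) ^ (π z)`.
There is a set `E` of complex numbers of Hausdorff dimension `0` such that for all `x` in the slit plane, outside `E`:
(1) for all number fields `F` with an embedding `ι` in `ℂ`, all `k ≥ 1` and `ω > 0` there are `C`, `T₁` such that for all
`T ≥ T₁` and all `z ∈ F`, quotients of integers with conjugates at most `T`, with `|ι z - x| ≤ T ^ (-ω)`, every nonzero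
integral polynomial of total degree at most `k` and height at most `H`, where `T ^ (1 / k) ≤ H ≤ T ^ k`, has at
`log z`, `exp (P_i (z, log z))` a value of absolute value at least `H ^ (-C)`;
(2) for all such `F`, `ι`, all `d`, `A` and `ω > 0` there are `B`, `T₁` such that for all `T ≥ T₁` and all such `z` the
numbers are not dependent (coefficients of degree at most `d` in the `u_k(z) / w(z)` and `ξ_i`);
(3) if `x` is real and irrational, for all `d`, `A` there is `B` such that the numbers at the convergents of `x` are not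
dependent over `ℚ`, at the level of the denominator, from some point on. -/
theorem result {r q g : ℕ} (P : Fin r → ℂ[X][X]) (hP : Admissible P)
    (u : Fin q → Polynomial ℂ) (w : Polynomial ℂ) (hw : ∀ t ∈ Complex.slitPlane, w.eval t ≠ 0) (ξ : Fin g → ℂ) :
    (Admissible pis ∧ ∀ z ∈ Complex.slitPlane, ∀ i, value pis (some i) z = powers z i) ∧
    ∃ E : Set ℂ, dimH E = 0 ∧
      (∀ x ∈ Complex.slitPlane, x ∉ E → ∀ (F : Type) [Field F] [NumberField F] (ι : F →+* ℂ)
        (k : ℕ) (ω : ℝ), 1 ≤ k → 0 < ω → ∃ C T₁ : ℝ, ∀ T : ℝ, T₁ ≤ T → ∀ t : F, Size F T t →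
          ‖ι t - x‖ ≤ T ^ (-ω) → Inequality k C T (fun j => value P j (ι t))) ∧
      (∀ x ∈ Complex.slitPlane, x ∉ E → ∀ (F : Type) [Field F] [NumberField F] (ι : F →+* ℂ)
        (d A : ℕ) (ω : ℝ), 0 < ω → ∃ B T₁ : ℝ, ∀ T : ℝ, T₁ ≤ T → ∀ t : F, Size F T t →
          ‖ι t - x‖ ≤ T ^ (-ω) → ¬ Dependent (value P) u w ξ F ι d A B T t) ∧
      ∀ x : ℝ, Irrational x → (x : ℂ) ∈ Complex.slitPlane → (x : ℂ) ∉ E → ∀ d A : ℕ, ∃ (B : ℝ) (n₀ : ℕ),
        ∀ k : ℕ, n₀ ≤ k → ¬ Dependent (value P) u w ξ ℚ (algebraMap ℚ ℂ) d A B (x.convergent k).den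
          (x.convergent k) := by
  refine ⟨⟨pis_admissible, fun z hz i => powers_eq hz i⟩, ?_⟩
  have hop : IsOpen Complex.slitPlane := Complex.isOpen_slitPlane
  have hpre : IsPreconnected Complex.slitPlane :=
    (Complex.starConvex_one_slitPlane.isPathConnected Complex.one_mem_slitPlane).isConnected.isPreconnected
  have hL : AnalyticOnNhd ℂ Complex.log Complex.slitPlane := fun z hz => analyticAt_clog hz
  have hval : value P =
      fun (o : Option (Fin r)) => o.elim Complex.log fun j x => Complex.exp ((P j).evalEval x (Complex.log x)) := by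
    funext w z
    rcases w with _ | i <;> rfl
  have han : ∀ w : Option (Fin r), AnalyticOnNhd ℂ (value P w) Complex.slitPlane := by
    rintro (_ | i)
    · exact hL
    · exact fun z hz => (Pool.Agent.X255.RH.Tow.evalEval_an hL (P i) z hz).cexp
  have hind : Pool.Agent.X255.RH.Indep Complex.slitPlane (value P) := by
    rw [hval]
    refine Pool.Agent.X255.RH.Tow.plog_indep hop ⟨1, Complex.one_mem_slitPlane⟩ hL
      (fun z hz => Complex.exp_log (Complex.slitPlane_ne_zero hz)) P fun n hn c k h => hP n hn c k ?_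
    rw [show (k : ℂ[X][X]) = C (C (k : ℂ)) by simp, ← h]
    exact Finset.sum_congr rfl fun i _ => by rw [show (n i : ℂ[X][X]) = C (C (n i : ℂ)) by simp]
  obtain ⟨E, h1, h2, h3⟩ := Pool.Agent.X39.Near.master_indep Complex.slitPlane hop hpre
    (value P) han hind u w hw ξ
  exact ⟨E, h1, Pool.Agent.X39.Near.ineq_of h2, h2, h3⟩

end Pool.Agent.Results.MP_4c2ad3_nt.ApproximationsOfAllNumbers
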