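import Pool.Agent.X139.VW.Core

/-!
# Powers of the primes with exponents `a + b π` against powers of `π ^ π` and of `π`

Let `C_1, …, C_g` be arbitrary positive real numbers. For all primes `p` with at most `g + 1`
exceptions, no product of `p ^ (a + b π)` (`b ≠ 0`), of powers of the `C_j` and of `e ^ (γ + δ π)`
with algebraic `a`, `b`, `γ`, `δ` and algebraic exponents of the `C_j` is algebraic; the same for
products over several primes. For `π ^ π` and `π` in the place of the `C_j` there are at most three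
exceptional primes, and at most two if `π ^ π` is algebraic. The general form has exponents from a
finite dimensional space over the real algebraic numbers.
-/

set_option autoImplicit false

namespace Pool.Agent.Results.MP_4c2ad3_nt.ArbitraryConstants

open Finset

/-- the combinations of the real numbers `v k` with real algebraic coefficients -/
def V {N : ℕ} (v : Fin N → ℝ) : Set ℝ :=
  {x | ∃ β : Fin N → ℝ, (∀ k, IsAlgebraic ℚ (β k)) ∧ x = ∑ k, β k * v k}

open Pool.Agent.H301R2.SSE (QB mem_QB Lt Lt_rep Lt_mul Lt_alg Lt_log Lt_one)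
open Pool.Agent.X139.BT Pool.Agent.X139.VW

theorem mem_two {a b : ℝ} (ha : IsAlgebraic ℚ a) (hb : IsAlgebraic ℚ b) (u v : ℝ) :
    a * u + b * v ∈ Comb ![u, v] := by
  refine ⟨![a, b], ?_, ?_⟩
  · intro k
    fin_cases k
    · exact ha
    · exact hb
  · rw [Fin.sum_univ_two]
    simp

theorem transc {a b : ℝ} (ha : IsAlgebraic ℚ a) (hb : IsAlgebraic ℚ b) (h0 : b ≠ 0) :
    Transcendental ℚ (a + b * Real.pi) := by
  intro h
  apply Pool.Agent.H340R2.LW.transcendental_pi_complex
  have h1 : IsAlgebraic ℚ (Real.pi : ℝ) := by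
    have : Real.pi = (a + b * Real.pi - a) / b := by field_simp; ring
    rw [this]
    exact (h.sub ha).mul hb.inv
  exact alg_ofReal h1

theorem result :
    -- exponents in `V v`, constants `exp d` with `d` in `V w`
    (∀ (N M : ℕ) (v : Fin N → ℝ) (w : Fin M → ℝ), 1 ∈ V v → ∀ (ι : Type) (α : ι → ℝ),
      (∀ s, 0 < α s) → (∀ s, IsAlgebraic ℚ (α s)) →
      LinearIndependent ℚ (fun s => Real.log (α s)) →
      ∃ E : Finset ι, E.card ≤ N * (N - 1) + M ∧
        (Real.pi ∈ V v → E.card + 1 ≤ N * (N - 1) + M) ∧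
        ∀ (S : Finset ι) (x : ι → ℝ) (c d : ℝ), (∀ s ∈ S, x s ∈ V v) → c ∈ V v → d ∈ V w →
          (∀ s ∈ S, s ∈ E → IsAlgebraic ℚ (x s)) → (∃ s ∈ S, Transcendental ℚ (x s)) →
          Transcendental ℚ ((∏ s ∈ S, α s ^ x s) * Real.exp (c + d))) ∧
    -- the primes, exponents `a + b π`, arbitrary positive constants
    (∀ (g : ℕ) (C : Fin g → ℝ), (∀ j, 0 < C j) → ∃ E : Finset ℕ, E.card ≤ g + 1 ∧
      ∀ (S : Finset ℕ) (a b : ℕ → ℝ) (β : Fin g → ℝ) (γ δ : ℝ),
        (∀ p ∈ S, p.Prime ∧ IsAlgebraic ℚ (a p) ∧ IsAlgebraic ℚ (b p)) →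
        (∀ j, IsAlgebraic ℚ (β j)) → IsAlgebraic ℚ γ → IsAlgebraic ℚ δ →
        (∀ p ∈ S, p ∈ E → b p = 0) → (∃ p ∈ S, b p ≠ 0) →
        Transcendental ℚ ((∏ p ∈ S, (p : ℝ) ^ (a p + b p * Real.pi)) * (∏ j, C j ^ β j) *
          Real.exp (γ + δ * Real.pi))) ∧
    -- the constants `π ^ π` and `π`
    (∃ E : Finset ℕ, E.card ≤ 3 ∧ (IsAlgebraic ℚ (Real.pi ^ Real.pi) → E.card ≤ 2) ∧
      ∀ (S : Finset ℕ) (a b : ℕ → ℝ) (β₁ β₂ γ δ : ℝ),
        (∀ p ∈ S, p.Prime ∧ IsAlgebraic ℚ (a p) ∧ IsAlgebraic ℚ (b p)) →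
        IsAlgebraic ℚ β₁ → IsAlgebraic ℚ β₂ → IsAlgebraic ℚ γ → IsAlgebraic ℚ δ →
        (∀ p ∈ S, p ∈ E → b p = 0) → (∃ p ∈ S, b p ≠ 0) →
        Transcendental ℚ ((∏ p ∈ S, (p : ℝ) ^ (a p + b p * Real.pi)) *
          (Real.pi ^ Real.pi) ^ β₁ * Real.pi ^ β₂ * Real.exp (γ + δ * Real.pi))) := by
  have h1V : (1 : ℝ) ∈ Comb ![1, Real.pi] := mem_Comb ![1, Real.pi] 0
  have hpV : Real.pi ∈ Comb ![1, Real.pi] := mem_Comb ![1, Real.pi] 1
  refine ⟨?_, ?_, ?_⟩
  · intro N M v w h1 ι α h0 ha hli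
    exact mainW v w h1 α h0 ha hli
  · intro g C hC
    obtain ⟨E, -, hE, h⟩ := primesW ![1, Real.pi] (fun j => Real.log (C j)) h1V
    refine ⟨E, by have := hE hpV; omega, ?_⟩
    intro S a b β γ δ hS hβ hγ hδ hE0 hex
    have h2 := h S (fun p => a p + b p * Real.pi) (γ + δ * Real.pi) (∑ j, β j * Real.log (C j)) 0
      (fun p hp => (hS p hp).1) (fun p hp => by
        have := mem_two (hS p hp).2.1 (hS p hp).2.2 1 Real.pi
        rwa [mul_one] at this)
      (by
        have := mem_two hγ hδ 1 Real.pi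
        rwa [mul_one] at this)
      ⟨β, hβ, rfl⟩ (by rw [Complex.ofReal_zero]; exact Lt.zero_mem)
      (fun p hp hpE => by
        rw [hE0 p hp hpE, zero_mul, add_zero]
        exact (hS p hp).2.1)
      (by
        obtain ⟨p, hp, hb⟩ := hex
        exact ⟨p, hp, transc (hS p hp).2.1 (hS p hp).2.2 hb⟩)
    have h3 : (∏ j, C j ^ β j) = Real.exp (∑ j, β j * Real.log (C j)) := by
      rw [Real.exp_sum]
      refine prod_congr rfl fun j _ => ?_
      rw [Real.rpow_def_of_pos (hC j), mul_comm]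
    rw [h3, mul_assoc, ← Real.exp_add]
    rw [add_zero, add_comm (γ + δ * Real.pi)] at h2
    exact h2
  · have hpi := Real.pi_pos
    have hexp : ∀ (S : Finset ℕ) (a b : ℕ → ℝ) (β₁ β₂ γ δ : ℝ),
        (∏ p ∈ S, (p : ℝ) ^ (a p + b p * Real.pi)) *
          (Real.pi ^ Real.pi) ^ β₁ * Real.pi ^ β₂ * Real.exp (γ + δ * Real.pi) =
        (∏ p ∈ S, (p : ℝ) ^ (a p + b p * Real.pi)) * Real.exp ((γ + δ * Real.pi) +
          (β₁ * (Real.pi * Real.log Real.pi) + β₂ * Real.log Real.pi)) := by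
      intro S a b β₁ β₂ γ δ
      have e1 : (Real.pi ^ Real.pi) ^ β₁ = Real.exp (β₁ * (Real.pi * Real.log Real.pi)) := by
        rw [Real.rpow_def_of_pos hpi, ← Real.exp_mul]
        congr 1
        ring
      have e2 : Real.pi ^ β₂ = Real.exp (β₂ * Real.log Real.pi) := by
        rw [Real.rpow_def_of_pos hpi, mul_comm]
      rw [e1, e2, mul_assoc, mul_assoc, ← Real.exp_add, ← Real.exp_add]
      congr 2
      ring
    by_cases hal : IsAlgebraic ℚ (Real.pi ^ Real.pi)
    · obtain ⟨E, -, hE, h⟩ := primesW ![1, Real.pi] ![Real.log Real.pi] h1V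
      have hE2 : E.card ≤ 2 := by have := hE hpV; omega
      refine ⟨E, by omega, fun _ => hE2, ?_⟩
      intro S a b β₁ β₂ γ δ hS hβ₁ hβ₂ hγ hδ hE0 hex
      have hL : ((β₁ * (Real.pi * Real.log Real.pi) : ℝ) : ℂ) ∈ Lt := by
        rw [Complex.ofReal_mul]
        apply Lt_mul (alg_ofReal hβ₁)
        apply Lt_log
        rw [← Complex.ofReal_exp]
        have : Real.exp (Real.pi * Real.log Real.pi) = Real.pi ^ Real.pi := by
          rw [Real.rpow_def_of_pos hpi, mul_comm]
        rw [this]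
        exact alg_ofReal hal
      have h2 := h S (fun p => a p + b p * Real.pi) (γ + δ * Real.pi) (β₂ * Real.log Real.pi)
        (β₁ * (Real.pi * Real.log Real.pi))
        (fun p hp => (hS p hp).1) (fun p hp => by
          have := mem_two (hS p hp).2.1 (hS p hp).2.2 1 Real.pi
          rwa [mul_one] at this)
        (by
          have := mem_two hγ hδ 1 Real.pi
          rwa [mul_one] at this)
        ⟨fun _ => β₂, fun _ => hβ₂, by simp⟩ hL
        (fun p hp hpE => by
          rw [hE0 p hp hpE, zero_mul, add_zero]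
          exact (hS p hp).2.1)
        (by
          obtain ⟨p, hp, hb⟩ := hex
          exact ⟨p, hp, transc (hS p hp).2.1 (hS p hp).2.2 hb⟩)
      rw [hexp]
      have e : γ + δ * Real.pi + (β₁ * (Real.pi * Real.log Real.pi) + β₂ * Real.log Real.pi) =
          γ + δ * Real.pi + β₂ * Real.log Real.pi + β₁ * (Real.pi * Real.log Real.pi) := by ring
      rw [e]
      exact h2
    · obtain ⟨E, -, hE, h⟩ := primesW ![1, Real.pi]
        ![Real.pi * Real.log Real.pi, Real.log Real.pi] h1V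
      refine ⟨E, by have := hE hpV; omega, fun h => absurd h hal, ?_⟩
      intro S a b β₁ β₂ γ δ hS hβ₁ hβ₂ hγ hδ hE0 hex
      have h2 := h S (fun p => a p + b p * Real.pi) (γ + δ * Real.pi)
        (β₁ * (Real.pi * Real.log Real.pi) + β₂ * Real.log Real.pi) 0
        (fun p hp => (hS p hp).1) (fun p hp => by
          have := mem_two (hS p hp).2.1 (hS p hp).2.2 1 Real.pi
          rwa [mul_one] at this)
        (by
          have := mem_two hγ hδ 1 Real.pi
          rwa [mul_one] at this)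
        (mem_two hβ₁ hβ₂ _ _) (by rw [Complex.ofReal_zero]; exact Lt.zero_mem)
        (fun p hp hpE => by
          rw [hE0 p hp hpE, zero_mul, add_zero]
          exact (hS p hp).2.1)
        (by
          obtain ⟨p, hp, hb⟩ := hex
          exact ⟨p, hp, transc (hS p hp).2.1 (hS p hp).2.2 hb⟩)
      rw [hexp]
      rw [add_zero] at h2
      exact h2

end Pool.Agent.Results.MP_4c2ad3_nt.ArbitraryConstants
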