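import Pool.Agent.X148.TR.PiPi

set_option autoImplicit false

/-!
# Transcendence of `(n π) ^ (β π)` for almost all integers `n`, and of `π ^ (β π ^ k)`

`Lt` is the space of all linear combinations, with algebraic coefficients, of `1` and of
logarithms of algebraic numbers; it contains `π`.
-/

namespace Pool.Agent.Results.MP_4c2ad3_nt.MultiplesAndIterates

open Pool.Agent.X148.TR
open Pool.Agent.H301R2.SSE (Lt)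

/-- (1) integer multiples of an arbitrary base, (2) algebraic multiples of an arbitrary base,
(3), (4) the same for `π`, (5), (6) powers as exponents, (7) the exponents `π, π ^ 2, π ^ 3` -/
theorem result :
    (∀ u t : ℝ, Transcendental ℚ u → (u : ℂ) ∈ Lt → 0 < t → ∀ N : ℕ,
      {n : ℕ | 1 ≤ n ∧ n ≤ N ∧ ∃ β : ℝ, β ≠ 0 ∧ IsAlgebraic ℚ β ∧
        IsAlgebraic ℚ (((n : ℝ) * t) ^ (β * u))}.ncard ≤ Nat.log 2 N + 1) ∧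
    (∀ u t : ℝ, Transcendental ℚ u → (u : ℂ) ∈ Lt → 0 < t → ∀ a b c : ℝ,
      0 < a → 0 < b → 0 < c → IsAlgebraic ℚ a → IsAlgebraic ℚ b → IsAlgebraic ℚ c →
      LinearIndependent ℚ ![Real.log (a / b), Real.log (a / c)] →
      ∀ β : Fin 3 → ℝ, (∀ i, β i ≠ 0) → (∀ i, IsAlgebraic ℚ (β i)) →
      Transcendental ℚ ((a * t) ^ (β 0 * u)) ∨ Transcendental ℚ ((b * t) ^ (β 1 * u)) ∨
        Transcendental ℚ ((c * t) ^ (β 2 * u))) ∧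
    ((Real.pi : ℂ) ∈ Lt) ∧
    (∀ N : ℕ, {n : ℕ | 1 ≤ n ∧ n ≤ N ∧ ∃ β : ℝ, β ≠ 0 ∧ IsAlgebraic ℚ β ∧
        IsAlgebraic ℚ (((n : ℝ) * Real.pi) ^ (β * Real.pi))}.ncard ≤ Nat.log 2 N + 1) ∧
    (∀ u t : ℝ, Transcendental ℚ u → (u : ℂ) ∈ Lt → 0 < t → t ≠ 1 →
      {k : ℕ | (∃ β : ℝ, β ≠ 0 ∧ IsAlgebraic ℚ β ∧ IsAlgebraic ℚ (t ^ (β * u ^ k))) ∧
        (∃ β : ℝ, β ≠ 0 ∧ IsAlgebraic ℚ β ∧
          IsAlgebraic ℚ (t ^ (β * u ^ (k + 1))))}.Subsingleton) ∧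
    (∀ u t : ℝ, Transcendental ℚ u → 0 < t → t ≠ 1 → ∀ N s : ℕ, 1 ≤ N →
      s = {k : ℕ | 1 ≤ k ∧ k ≤ N ∧ ∃ β : ℝ, β ≠ 0 ∧ IsAlgebraic ℚ β ∧
        IsAlgebraic ℚ (t ^ (β * u ^ k))}.ncard → s * (s - 1) ≤ 4 * (N - 1)) ∧
    (∀ β : Fin 3 → ℝ, (∀ i, β i ≠ 0) → (∀ i, IsAlgebraic ℚ (β i)) →
      Transcendental ℚ (Real.pi ^ (β 0 * Real.pi)) ∨
      Transcendental ℚ (Real.pi ^ (β 1 * Real.pi ^ 2)) ∨
      Transcendental ℚ (Real.pi ^ (β 2 * Real.pi ^ 3))) := by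
  have htr : ∀ {u : ℝ}, Transcendental ℚ u → Transcendental ℚ (u : ℂ) :=
    fun hu h => hu (Pool.Agent.H301R2.Nine.ofC h)
  have hpi : Transcendental ℚ Real.pi := fun h => transc_pi (Pool.Agent.H301R2.Nine.toC h)
  have h1 : ∀ u t : ℝ, Transcendental ℚ u → (u : ℂ) ∈ Lt → 0 < t → ∀ N : ℕ,
      {n : ℕ | 1 ≤ n ∧ n ≤ N ∧ ∃ β : ℝ, β ≠ 0 ∧ IsAlgebraic ℚ β ∧
        IsAlgebraic ℚ (((n : ℝ) * t) ^ (β * u))}.ncard ≤ Nat.log 2 N + 1 :=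
    fun u t hu huL ht N => count_good (htr hu) huL ht N
  have h5 : ∀ u t : ℝ, Transcendental ℚ u → (u : ℂ) ∈ Lt → 0 < t → t ≠ 1 →
      {k : ℕ | (∃ β : ℝ, β ≠ 0 ∧ IsAlgebraic ℚ β ∧ IsAlgebraic ℚ (t ^ (β * u ^ k))) ∧
        (∃ β : ℝ, β ≠ 0 ∧ IsAlgebraic ℚ β ∧
          IsAlgebraic ℚ (t ^ (β * u ^ (k + 1))))}.Subsingleton :=
    fun u t hu huL ht ht1 j hj k hk => one_consecutive (htr hu) huL ht ht1 hj.1 hj.2 hk.1 hk.2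
  refine ⟨h1, ?_, pi_Lt, h1 _ _ hpi pi_Lt Real.pi_pos, h5, ?_, ?_⟩
  · intro u t hu huL ht a b c ha hb hc haa hba hca hli β hβ hβa
    by_contra hcon
    push Not at hcon
    simp only [Transcendental, not_not] at hcon
    obtain ⟨g1, g2, g3⟩ := hcon
    exact four_bases (htr hu) huL ht ha hb ha hc haa hba haa hca ⟨β 0, hβ 0, hβa 0, g1⟩
      ⟨β 1, hβ 1, hβa 1, g2⟩ ⟨β 0, hβ 0, hβa 0, g1⟩ ⟨β 2, hβ 2, hβa 2, g3⟩ hli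
  · intro u t hu ht ht1 N s hN hs
    exact count_exponents (htr hu) ht ht1 N s hN hs
  · intro β hβ hβa
    by_contra hcon
    push Not at hcon
    simp only [Transcendental, not_not] at hcon
    obtain ⟨g1, g2, g3⟩ := hcon
    have h0 : Real.pi ≠ 1 := by
      have := Real.pi_gt_three
      intro h
      linarith
    have h6 := h5 Real.pi Real.pi hpi pi_Lt Real.pi_pos h0
      (x := 1) ⟨⟨β 0, hβ 0, hβa 0, by rwa [pow_one]⟩, ⟨β 1, hβ 1, hβa 1, g2⟩⟩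
      (y := 2) ⟨⟨β 1, hβ 1, hβa 1, g2⟩, ⟨β 2, hβ 2, hβa 2, g3⟩⟩
    omega

end Pool.Agent.Results.MP_4c2ad3_nt.MultiplesAndIterates
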